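import Mathlib
import Pool.Agent.H.MP_e338b6_co.B

namespace Pool.Agent.Results.MP_e338b6_co.Counter

open Pool.Agent.H.MP_e338b6_co

/-- `G` is `k`-critical: its chromatic number is `k` and every proper subgraph has a smaller one. -/
def IsCritical {V : Type} (G : SimpleGraph V) (k : ℕ) : Prop :=
  G.chromaticNumber = k ∧ ∀ H : G.Subgraph, H ≠ ⊤ → H.coe.chromaticNumber < k

theorem result : ∃ (V : Type) (_ : Finite V) (G : SimpleGraph V),
    IsCritical G 10 ∧ G.CliqueFree 9 ∧
      (Nat.card G.edgeSet : ℤ) ≤ 5 * (Nat.card V : ℤ) - 11 := by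
  classical
  obtain ⟨V, _, G, h1, h2, h3, h4⟩ := final
  refine ⟨V, inferInstance, G, ⟨?_, ?_⟩, ?_, ?_⟩
  · have hn : ¬ G.Colorable 9 := fun ⟨C⟩ => h1.nc ⟨C, fun u v h => C.valid h⟩
    have hc : G.Colorable 10 := by
      obtain ⟨x⟩ : Nonempty V := Fintype.card_pos_iff.1 (by omega)
      obtain ⟨y, hxy⟩ := h1.ni x
      obtain ⟨c, hc⟩ := h1.ec x y hxy
      refine ⟨SimpleGraph.Coloring.mk (fun v => if v = x then Fin.last 9 else (c v).castSucc) ?_⟩
      intro u v huv
      by_cases a : u = x <;> by_cases b : v = x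
      · exact absurd (a.trans b.symm) huv.ne
      · rw [if_pos a, if_neg b]; exact (Fin.castSucc_lt_last _).ne'
      · rw [if_neg a, if_pos b]; exact (Fin.castSucc_lt_last _).ne
      · rw [if_neg a, if_neg b]
        intro e
        exact hc u v huv (by simp [a, b]) (Fin.castSucc_injective _ e)
    have a := hc.chromaticNumber_le
    have b : ¬ G.chromaticNumber ≤ (9 : ℕ) := fun h =>
      hn (SimpleGraph.chromaticNumber_le_iff_colorable.1 h)
    refine le_antisymm a ?_
    push Not at b
    exact Order.add_one_le_of_lt b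
  · intro H hH
    have : ∃ x y, G.Adj x y ∧ ¬ H.Adj x y := by
      by_contra hall
      push Not at hall
      apply hH
      ext u v
      · obtain ⟨w, hw⟩ := h1.ni u
        simpa using H.edge_vert (hall u w hw)
      · exact ⟨fun h => H.adj_sub h, fun h => hall u v h⟩
    obtain ⟨x, y, hxy, hn⟩ := this
    obtain ⟨c, hc⟩ := h1.ec x y hxy
    have hcol : H.coe.Colorable 9 := by
      refine ⟨SimpleGraph.Coloring.mk (fun v => c v.1) ?_⟩
      intro u v huv
      refine hc _ _ (H.adj_sub huv) (fun e => hn ?_)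
      rcases Sym2.eq_iff.1 e with ⟨rfl, rfl⟩ | ⟨rfl, rfl⟩
      exacts [huv, huv.symm]
    exact lt_of_le_of_lt hcol.chromaticNumber_le (by exact_mod_cast (by norm_num : 9 < 10))
  · intro s hs
    exact h2 s hs.card_eq (fun u hu v hv huv => hs.isClique hu hv huv)
  · rw [h4, Nat.card_eq_fintype_card, h3]; norm_num

end Pool.Agent.Results.MP_e338b6_co.Counter
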